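import Mathlib

/-!
# An abstract selection theorem on compact spaces

`Θ` is a compact Hausdorff space with continuous maps `g i`; `z i` is the colour of the vertex `i`,
flipped by `g i` and by no other `g j`; `Col v` is the colour of the vertex `v`.  Each `g i` changes
the colours of finitely many vertices.  Then at some point all `i ∈ A` have infinitely many allowed
neighbours of colour other than `z i`.
-/

set_option autoImplicit false

namespace UnfE

open Classical

variable {V Θ : Type*} [TopologicalSpace Θ] (g : V → Θ → Θ) (z : V → Θ → Bool)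
  (Col : V → Θ → Bool) (Nb : V → Set V) (A : Set V)

/-- Admissible pairs. -/
def Adm (L : Set V) (K : Set Θ) : Prop :=
  IsClosed K ∧ K.Nonempty ∧ (∀ j ∈ A, j ∉ L → ∀ t ∈ K, g j t ∈ K) ∧
    ∀ i ∈ L, ∀ t ∈ K, {v | v ∈ Nb i ∧ Col v t ≠ z i t}.Infinite

variable {g z Col Nb A}

theorem exists_max_adm [CompactSpace Θ] [Nonempty Θ] :
    ∃ L K, Adm g z Col Nb A L K ∧ ∀ L' K', Adm g z Col Nb A L' K' → L ⊆ L' → K' ⊆ K →
      L' ⊆ L ∧ K ⊆ K' := by
  let α := {p : Set V × Set Θ // Adm g z Col Nb A p.1 p.2}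
  let r : α → α → Prop := fun p q => p.1.1 ⊆ q.1.1 ∧ q.1.2 ⊆ p.1.2
  have hz : ∃ m : α, ∀ a, r m a → r a m := by
    refine exists_maximal_of_chains_bounded (r := r) ?_ ?_
    · intro C hC
      rcases C.eq_empty_or_nonempty with rfl | hCne
      · refine ⟨⟨(∅, Set.univ), isClosed_univ, Set.univ_nonempty, fun _ _ _ _ _ => trivial,
          fun i hi => absurd hi (Set.notMem_empty i)⟩, by simp⟩
      have hne : (⋂ p ∈ C, p.1.2).Nonempty := by
        have hnC : Nonempty C := hCne.to_subtype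
        have h := IsCompact.nonempty_iInter_of_directed_nonempty_isCompact_isClosed
          (fun p : C => p.1.1.2) ?_ (fun p => p.1.2.2.1) (fun p => p.1.2.1.isCompact)
          (fun p => p.1.2.1)
        · rw [Set.biInter_eq_iInter]
          exact h
        · intro p q
          by_cases hpq : p.1 = q.1
          · exact ⟨p, subset_rfl, by
              show p.1.1.2 ⊆ q.1.1.2
              rw [hpq]⟩
          · rcases hC p.2 q.2 hpq with h2 | h2
            · exact ⟨q, h2.2, subset_rfl⟩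
            · exact ⟨p, subset_rfl, h2.2⟩
      refine ⟨⟨(⋃ p ∈ C, p.1.1, ⋂ p ∈ C, p.1.2), ?_, hne, ?_, ?_⟩, ?_⟩
      · exact isClosed_biInter fun p _ => p.2.1
      · intro j hj hjL t ht
        simp only [Set.mem_iUnion, not_exists] at hjL
        simp only [Set.mem_iInter] at ht ⊢
        intro p hp
        exact p.2.2.2.1 j hj (hjL p hp) t (ht p hp)
      · intro i hi t ht
        simp only [Set.mem_iUnion] at hi
        simp only [Set.mem_iInter] at ht
        obtain ⟨p, hp, hip⟩ := hi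
        exact p.2.2.2.2 i hip t (ht p hp)
      · intro p hp
        exact ⟨Set.subset_biUnion_of_mem (u := fun p : α => p.1.1) hp,
          Set.biInter_subset_of_mem (t := fun p : α => p.1.2) hp⟩
    · intro a b c hab hbc
      exact ⟨hab.1.trans hbc.1, hbc.2.trans hab.2⟩
  obtain ⟨m, hm⟩ := hz
  refine ⟨m.1.1, m.1.2, m.2, fun L' K' h1 h2 h3 => ?_⟩
  have h4 := hm ⟨(L', K'), h1⟩ ⟨h2, h3⟩
  exact ⟨h4.1, h4.2⟩

theorem select [CompactSpace Θ] [T2Space Θ] [Nonempty Θ] [Countable V]
    (hg : ∀ i ∈ A, Continuous (g i)) (hz : ∀ i ∈ A, Continuous (z i))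
    (h1 : ∀ i ∈ A, ∀ t, z i (g i t) = !(z i t))
    (h2 : ∀ i ∈ A, ∀ j ∈ A, i ≠ j → ∀ t, z j (g i t) = z j t)
    (hCol : ∀ v, Continuous (Col v))
    (hfin : ∀ i ∈ A, ∀ t, {v | Col v (g i t) ≠ Col v t}.Finite)
    (hNb : ∀ i ∈ A, (Nb i).Infinite) :
    ∃ t : Θ, ∀ i ∈ A, {v | v ∈ Nb i ∧ Col v t ≠ z i t}.Infinite := by
  obtain ⟨L, K, hK, hmax⟩ := exists_max_adm (g := g) (z := z) (Col := Col) (Nb := Nb) (A := A)
  obtain ⟨hKc, hKne, hKi, hKh⟩ := hK
  -- the sets `U`
  let U : V → Bool → Set Θ := fun i c => {t | t ∈ K ∧ {v | v ∈ Nb i ∧ Col v t ≠ c}.Infinite}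
  have hUne : ∀ i ∈ A, i ∉ L → ∀ c, (U i c).Nonempty := by
    intro i hi hiL c
    by_contra hcon
    rw [Set.not_nonempty_iff_eq_empty] at hcon
    have hall : ∀ t ∈ K, {v | v ∈ Nb i ∧ Col v t ≠ c}.Finite := by
      intro t ht
      by_contra h
      have : t ∈ U i c := ⟨ht, h⟩
      rw [hcon] at this
      exact this
    have hadm : Adm g z Col Nb A (insert i L) (K ∩ {t | z i t = !c}) := by
      refine ⟨hKc.inter (isClosed_eq (hz i hi) continuous_const), ?_, ?_, ?_⟩
      · obtain ⟨t, ht⟩ := hKne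
        by_cases h : z i t = !c
        · exact ⟨t, ht, h⟩
        · refine ⟨g i t, hKi i hi hiL t ht, ?_⟩
          show z i (g i t) = !c
          rw [h1 i hi]
          cases c <;> cases h5 : z i t <;> simp_all
      · intro j hj hjL t ht
        rw [Set.mem_insert_iff, not_or] at hjL
        refine ⟨hKi j hj hjL.2 t ht.1, ?_⟩
        show z i (g j t) = !c
        rw [h2 j hj i hi hjL.1]
        exact ht.2
      · rintro j hj t ⟨ht, htz⟩
        rcases hj with rfl | hj
        · refine ((hNb j hi).sdiff (hall t ht)).mono ?_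
          rintro v ⟨hv1, hv2⟩
          refine ⟨hv1, ?_⟩
          have h5 : Col v t = c := by
            by_contra h
            exact hv2 ⟨hv1, h⟩
          rw [h5]
          have htz' : z j t = !c := htz
          rw [htz']
          cases c <;> simp
        · exact hKh j hj t ht
    exact hiL ((hmax _ _ hadm (Set.subset_insert _ _) Set.inter_subset_left).1
      (Set.mem_insert _ _))
  have hUd : ∀ i ∈ A, i ∉ L → ∀ c, K ⊆ closure (U i c) := by
    intro i hi hiL c
    have hsub : closure (U i c) ⊆ K := closure_minimal (fun t ht => ht.1) hKc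
    have hadm : Adm g z Col Nb A L (closure (U i c)) := by
      refine ⟨isClosed_closure, (hUne i hi hiL c).closure, ?_, fun j hj t ht => hKh j hj t (hsub ht)⟩
      intro j hj hjL t ht
      have h3 : Set.MapsTo (g j) (U i c) (U i c) := by
        rintro s ⟨hs1, hs2⟩
        refine ⟨hKi j hj hjL s hs1, ?_⟩
        intro hf
        refine hs2 ((hf.union (hfin j hj s)).subset ?_)
        rintro v ⟨hv1, hv2⟩
        by_cases h6 : Col v (g j s) = Col v s
        · exact Or.inl ⟨hv1, by rw [h6]; exact hv2⟩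
        · exact Or.inr h6
      exact (h3.closure (hg j hj)) ht
    exact (hmax _ _ hadm subset_rfl hsub).2
  -- Baire category
  have hKcomp : CompactSpace K := isCompact_iff_compactSpace.1 hKc.isCompact
  have hKn : Nonempty K := hKne.to_subtype
  let O : {u : V // u ∈ A ∧ u ∉ L} × Bool × Finset V → Set K := fun p =>
    ⋃ v ∈ {v : V | v ∈ Nb p.1.1 ∧ v ∉ p.2.2}, {t : K | Col v t ≠ p.2.1}
  have hO : ∀ p, IsOpen (O p) := by
    intro p
    refine isOpen_biUnion fun v _ => ?_
    have h3 : IsOpen ({b : Bool | b ≠ p.2.1}) := isOpen_discrete _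
    exact h3.preimage ((hCol v).comp continuous_subtype_val)
  have hD : ∀ p, Dense (O p) := by
    intro p t
    have ht : t.1 ∈ closure (U p.1.1 p.2.1) := hUd p.1.1 p.1.2.1 p.1.2.2 p.2.1 t.2
    rw [mem_closure_iff] at ht ⊢
    intro W hW htW
    obtain ⟨W', hW', rfl⟩ := isOpen_induced_iff.1 hW
    obtain ⟨s, hs1, hs2, hs3⟩ := ht W' hW' htW
    refine ⟨⟨s, hs2⟩, hs1, ?_⟩
    obtain ⟨v, hv, hvn⟩ := (hs3.sdiff p.2.2.finite_toSet).nonempty
    exact Set.mem_biUnion (show v ∈ {v : V | v ∈ Nb p.1.1 ∧ v ∉ p.2.2} from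
        ⟨hv.1, by simpa using hvn⟩) hv.2
  have hBaire : BaireSpace K := inferInstance
  obtain ⟨t, ht⟩ := (dense_iInter_of_isOpen hO hD).nonempty
  rw [Set.mem_iInter] at ht
  refine ⟨t.1, fun u huA => ?_⟩
  by_cases huL : u ∈ L
  · exact hKh u huL t.1 t.2
  · intro hfin'
    have h := ht (⟨u, huA, huL⟩, z u t.1, hfin'.toFinset)
    simp only [O, Set.mem_iUnion] at h
    obtain ⟨v, ⟨hv1, hv2⟩, hv3⟩ := h
    exact hv2 ((Set.Finite.mem_toFinset hfin').2 ⟨hv1, hv3⟩)

end UnfE
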