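import Pool.Agent.Work.MP_1aab6d_co_h50.Relax

/-!
# Layers, the repair lemma and metastable states

`E Γ c D` is the energy needed for flipping the finite set `D` in the colouring `c`.  `Ly Γ T n S`
consists of the vertices of `S` and of the vertices of `T` which can be reached from `S` in `n`
steps inside `T`.
-/

set_option autoImplicit false

namespace UnfE

open Finset Classical Unf UnfL

variable {V : Type*}

/-- The energy of a finite set. -/
noncomputable abbrev E (Γ : SimpleGraph V) (c : V → Bool) (D : Finset V) : ℤ :=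
  en Γ (eps Set.univ c) D

lemma E_congr {Γ : SimpleGraph V} {c c' : V → Bool} {D : Finset V} (h1 : ∀ x ∈ D, c x = c' x)
    (h2 : ∀ x ∈ D, ∀ y ∈ nb Γ x, c y = c' y) : E Γ c D = E Γ c' D := by
  refine en_congr fun x hx y hy _ => ?_
  unfold eps
  rw [h1 x hx, h2 x hx y hy]

section

variable (Γ : SimpleGraph V) (T : Set V)

/-- Add one layer. -/
noncomputable def Ns (S : Finset V) : Finset V := S ∪ (S.biUnion (fun x => nb Γ x)).filter (· ∈ T)

/-- Add `n` layers. -/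
noncomputable def Ly : ℕ → Finset V → Finset V
  | 0, S => S
  | n + 1, S => Ns Γ T (Ly n S)

end

variable {Γ : SimpleGraph V} {T : Set V} {S : Finset V}

lemma Ly_succ_sub (n : ℕ) : Ly Γ T n S ⊆ Ly Γ T (n + 1) S := Finset.subset_union_left

lemma Ly_mono {n m : ℕ} (h : n ≤ m) : Ly Γ T n S ⊆ Ly Γ T m S := by
  induction m, h using Nat.le_induction with
  | base => exact subset_rfl
  | succ m _ ih => exact ih.trans (Ly_succ_sub m)

lemma sub_Ly (n : ℕ) : S ⊆ Ly Γ T n S := Ly_mono (Γ := Γ) (T := T) (S := S) (Nat.zero_le n)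

lemma Ly_sub (hS : ∀ x ∈ S, x ∈ T) (n : ℕ) : ∀ x ∈ Ly Γ T n S, x ∈ T := by
  induction n with
  | zero => exact hS
  | succ n ih =>
    intro x hx
    have hx' : x ∈ Ns Γ T (Ly Γ T n S) := hx
    rw [Ns, mem_union, mem_filter] at hx'
    rcases hx' with h | h
    · exact ih x h
    · exact h.2

lemma Ly_adj {n : ℕ} {x y : V} (hx : x ∈ Ly Γ T n S) (hxI : ¬ Inf Γ x) (hy : y ∈ T)
    (h : Γ.Adj x y) : y ∈ Ly Γ T (n + 1) S := by
  show y ∈ Ns Γ T (Ly Γ T n S)
  rw [Ns, mem_union, mem_filter, mem_biUnion]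
  exact Or.inr ⟨⟨x, hx, (mem_nb Γ hxI).2 h⟩, hy⟩

lemma Ly_mono_set {S' : Finset V} (h : S ⊆ S') (n : ℕ) : Ly Γ T n S ⊆ Ly Γ T n S' := by
  induction n with
  | zero => exact h
  | succ n ih =>
    intro x hx
    have hx' : x ∈ Ns Γ T (Ly Γ T n S) := hx
    show x ∈ Ns Γ T (Ly Γ T n S')
    rw [Ns, mem_union, mem_filter, mem_biUnion] at hx' ⊢
    rcases hx' with h1 | ⟨⟨a, h1, h2⟩, h3⟩
    · exact Or.inl (ih h1)
    · exact Or.inr ⟨⟨a, ih h1, h2⟩, h3⟩

/-- The result of a repair of the colouring `c`: the set `p.1` to be flipped and the number `p.2` of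
layers reached. -/
def Rp (Γ : SimpleGraph V) (T : Set V) (S : Finset V) (K : ℕ) (c : V → Bool)
    (p : Finset V × ℕ) : Prop :=
  p.2 < K ∧ p.1 ⊆ Ly Γ T p.2 S ∧ E Γ c p.1 ≤ 0 ∧
    (∀ v ∈ Ly Γ T (p.2 + 1) S, 0 ≤ E Γ (flp c p.1) {v}) ∧ ∀ D ⊆ S, 0 ≤ E Γ (flp c p.1) D

theorem repair (hT : ∀ x ∈ T, ¬ Inf Γ x) (hS : ∀ x ∈ S, x ∈ T) {c : V → Bool} {K e : ℕ}
    (hK : 2 * e < K) (h : ∀ D ⊆ Ly Γ T K S, -(e : ℤ) ≤ E Γ c D) : ∃ p, Rp Γ T S K c p := by
  obtain ⟨p, hp, hmin⟩ := Finset.exists_min_image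
    (((Ly Γ T K S).powerset ×ˢ range (K + 1)).filter (fun p => p.1 ⊆ Ly Γ T p.2 S))
    (fun p => 2 * E Γ c p.1 + (p.2 : ℤ)) ⟨(∅, 0), by
      rw [mem_filter, mem_product, mem_powerset, mem_range]
      exact ⟨⟨Finset.empty_subset _, Nat.succ_pos _⟩, Finset.empty_subset _⟩⟩
  rw [mem_filter, mem_product, mem_powerset, mem_range] at hp
  obtain ⟨⟨hp1, hp2⟩, hp3⟩ := hp
  have hmin' : ∀ (D : Finset V) (j : ℕ), j ≤ K → D ⊆ Ly Γ T j S →
      2 * E Γ c p.1 + (p.2 : ℤ) ≤ 2 * E Γ c D + (j : ℤ) := by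
    intro D j hj hD
    refine hmin (D, j) ?_
    rw [mem_filter, mem_product, mem_powerset, mem_range]
    exact ⟨⟨hD.trans (Ly_mono hj), Nat.lt_succ_of_le hj⟩, hD⟩
  have h0 := hmin' ∅ 0 (Nat.zero_le _) (Finset.empty_subset _)
  have hE0 : E Γ c ∅ = 0 := en_empty _
  rw [hE0] at h0
  have h1 := h p.1 hp1
  have hpK : p.2 < K := by
    have : (p.2 : ℤ) ≤ 2 * e := by push_cast at h0; linarith
    have : p.2 ≤ 2 * e := by exact_mod_cast this
    omega
  have hpT : ∀ x ∈ p.1, ¬ Inf Γ x := fun x hx => hT x (Ly_sub hS _ x (hp1 hx))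
  refine ⟨p, hpK, hp3, ?_, ?_, ?_⟩
  · push_cast at h0
    have : (0 : ℤ) ≤ p.2 := by positivity
    linarith
  · intro v hv
    have hvT : ¬ Inf Γ v := hT v (Ly_sub hS _ v hv)
    show 0 ≤ en Γ (eps Set.univ (flp c p.1)) {v}
    rw [en_flp c p.1 {v} hpT (by simpa using hvT)]
    have h2 := hmin' (symmDiff p.1 {v}) (p.2 + 1) hpK (by
      intro x hx
      rw [Finset.mem_symmDiff, Finset.mem_singleton] at hx
      rcases hx with ⟨hx, _⟩ | ⟨hx, _⟩
      · exact Ly_succ_sub _ (hp3 hx)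
      · rw [hx]; exact hv)
    push_cast at h2
    have h3 : 2 * E Γ c p.1 ≤ 2 * E Γ c (symmDiff p.1 {v}) + 1 := by linarith
    have h4 : E Γ c p.1 ≤ E Γ c (symmDiff p.1 {v}) := by omega
    exact sub_nonneg.2 h4
  · intro D hD
    show 0 ≤ en Γ (eps Set.univ (flp c p.1)) D
    rw [en_flp c p.1 D hpT (fun x hx => hT x (hS x (hD hx)))]
    have h2 := hmin' (symmDiff p.1 D) p.2 hpK.le (by
      intro x hx
      rw [Finset.mem_symmDiff] at hx
      rcases hx with ⟨hx, _⟩ | ⟨hx, _⟩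
      · exact hp3 hx
      · exact sub_Ly _ (hD hx))
    have h4 : E Γ c p.1 ≤ E Γ c (symmDiff p.1 D) := by linarith
    exact sub_nonneg.2 h4

/-- The vertices and their neighbours on which the repair depends. -/
noncomputable def Win (Γ : SimpleGraph V) (T : Set V) (S : Finset V) (K : ℕ) : Finset V :=
  Ly Γ T K S ∪ (Ly Γ T K S).biUnion (fun x => nb Γ x)

/-- Restriction of a colouring to a finite window. -/
noncomputable def rs (W : Finset V) (c : V → Bool) : V → Bool := fun v => if v ∈ W then c v else false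

lemma rs_congr {W : Finset V} {c c' : V → Bool} (h : ∀ v ∈ W, c v = c' v) : rs W c = rs W c' := by
  funext v
  unfold rs
  split_ifs with hv
  · exact h v hv
  · rfl

lemma rs_mem {W : Finset V} {c : V → Bool} {v : V} (h : v ∈ W) : rs W c v = c v := if_pos h

lemma rs_flp {W : Finset V} {c : V → Bool} {B : Finset V} {v : V} (h : v ∈ W) :
    flp (rs W c) B v = flp c B v := by
  unfold flp
  rw [rs_mem h]

/-- The chosen repair; it depends on the colours in the window only. -/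
noncomputable def Rc (Γ : SimpleGraph V) (T : Set V) (S : Finset V) (K : ℕ) (c : V → Bool) :
    Finset V × ℕ :=
  if h : ∃ p, Rp Γ T S K (rs (Win Γ T S K) c) p then h.choose else (∅, 0)

lemma Rc_congr {K : ℕ} {c c' : V → Bool} (h : ∀ v ∈ Win Γ T S K, c v = c' v) :
    Rc Γ T S K c = Rc Γ T S K c' := by
  unfold Rc
  rw [rs_congr h]

lemma Rc_sub (K : ℕ) (c : V → Bool) : (Rc Γ T S K c).1 ⊆ Ly Γ T K S := by
  unfold Rc
  split_ifs with h
  · exact h.choose_spec.2.1.trans (Ly_mono h.choose_spec.1.le)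
  · exact Finset.empty_subset _

lemma E_rs {K : ℕ} {c : V → Bool} {D : Finset V} (hD : D ⊆ Ly Γ T K S) :
    E Γ (rs (Win Γ T S K) c) D = E Γ c D := by
  refine E_congr (fun x hx => rs_mem ?_) fun x hx y hy => rs_mem ?_
  · exact mem_union_left _ (hD hx)
  · exact mem_union_right _ (mem_biUnion.2 ⟨x, hD hx, hy⟩)

lemma E_rs_flp {K : ℕ} {c : V → Bool} {D B : Finset V} (hD : D ⊆ Ly Γ T K S) :
    E Γ (flp (rs (Win Γ T S K) c) B) D = E Γ (flp c B) D := by
  refine E_congr (fun x hx => rs_flp ?_) fun x hx y hy => rs_flp ?_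
  · exact mem_union_left _ (hD hx)
  · exact mem_union_right _ (mem_biUnion.2 ⟨x, hD hx, hy⟩)

theorem Rc_spec (hT : ∀ x ∈ T, ¬ Inf Γ x) (hS : ∀ x ∈ S, x ∈ T) {c : V → Bool} {K e : ℕ}
    (hK : 2 * e < K) (h : ∀ D ⊆ Ly Γ T K S, -(e : ℤ) ≤ E Γ c D) :
    Rp Γ T S K c (Rc Γ T S K c) := by
  have h1 : ∃ p, Rp Γ T S K (rs (Win Γ T S K) c) p := repair hT hS hK (fun D hD => by
    rw [E_rs hD]; exact h D hD)
  have h2 : Rc Γ T S K c = h1.choose := dif_pos h1
  rw [h2]
  obtain ⟨a1, a2, a3, a4, a5⟩ := h1.choose_spec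
  refine ⟨a1, a2, ?_, ?_, ?_⟩
  · rw [← E_rs (a2.trans (Ly_mono a1.le))]
    exact a3
  · intro v hv
    rw [← E_rs_flp (Γ := Γ) (T := T) (S := S) (K := K) (c := c) (by
      rw [Finset.singleton_subset_iff]; exact Ly_mono a1 hv)]
    exact a4 v hv
  · intro D hD
    rw [← E_rs_flp (Γ := Γ) (T := T) (S := S) (K := K) (c := c) (hD.trans (sub_Ly _))]
    exact a5 D hD

/-- Existence of ground states on `J` with prescribed colours outside `J`. -/
theorem ground (hT : ∀ x ∈ T, ¬ Inf Γ x) (ρ : V → Bool) :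
    ∃ c : V → Bool, (∀ v, v ∉ T → c v = ρ v) ∧ ∀ D : Finset V, (∀ x ∈ D, x ∈ T) → 0 ≤ E Γ c D := by
  let K : Finset V → Set (V → Bool) := fun Q =>
    {c | (∀ v, v ∉ T → c v = ρ v) ∧ ((∀ x ∈ Q, x ∈ T) → 0 ≤ E Γ c Q)}
  have hK : ∀ Q, IsClosed (K Q) := by
    intro Q
    have c1 : IsClosed {c : V → Bool | ∀ v, v ∉ T → c v = ρ v} := by
      have : {c : V → Bool | ∀ v, v ∉ T → c v = ρ v} = ⋂ v ∈ Tᶜ, {c | c v = ρ v} := by
        ext c; simp
      rw [this]
      exact isClosed_biInter fun v _ => isClosed_eq (continuous_apply v) continuous_const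
    by_cases hq : ∀ x ∈ Q, x ∈ T
    · have : K Q = {c : V → Bool | ∀ v, v ∉ T → c v = ρ v} ∩ {c | 0 ≤ E Γ c Q} := by
        ext c; simp only [K, Set.mem_ofPred_eq, Set.mem_inter_iff]
        exact and_congr_right fun _ => ⟨fun h => h hq, fun h _ => h⟩
      rw [this]
      exact c1.inter (isClosed_le continuous_const (continuous_en Q))
    · have : K Q = {c : V → Bool | ∀ v, v ∉ T → c v = ρ v} := by
        ext c; simp only [K, Set.mem_ofPred_eq]
        exact ⟨fun h => h.1, fun h => ⟨h, fun h' => absurd h' hq⟩⟩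
      rw [this]; exact c1
  have hne : ∀ t : Finset (Finset V), (Set.univ ∩ ⋂ Q ∈ t, K Q).Nonempty := by
    intro t
    set A : Finset V := (t.biUnion id).filter (· ∈ T) with hA
    have hAI : ∀ x ∈ A, ¬ Inf Γ x := by
      intro x hx
      rw [hA, mem_filter] at hx
      exact hT x hx.2
    obtain ⟨B, hB, hmin⟩ := Finset.exists_min_image A.powerset
      (fun B => en Γ (eps Set.univ ρ) B) ⟨∅, Finset.empty_mem_powerset A⟩
    rw [mem_powerset] at hB
    refine ⟨flp ρ B, Set.mem_univ _, ?_⟩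
    simp only [Set.mem_iInter]
    intro Q hQt
    refine ⟨fun v hv => flp_of_not_mem fun hvB => ?_, fun hq => ?_⟩
    · have := hB hvB
      rw [hA, mem_filter] at this
      exact hv this.2
    · have hQA : Q ⊆ A := by
        intro x hx
        rw [hA, mem_filter]
        exact ⟨mem_biUnion.2 ⟨Q, hQt, hx⟩, hq x hx⟩
      show 0 ≤ en Γ (eps Set.univ (flp ρ B)) Q
      rw [en_flp ρ B Q (fun x hx => hAI x (hB hx)) (fun x hx => hAI x (hQA hx))]
      have : symmDiff B Q ∈ A.powerset := by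
        rw [mem_powerset]
        intro x hx
        rw [Finset.mem_symmDiff] at hx
        rcases hx with hx | hx
        · exact hB hx.1
        · exact hQA hx.1
      have := hmin _ this
      linarith
  obtain ⟨c, -, hc⟩ := isCompact_univ.inter_iInter_nonempty K hK hne
  rw [Set.mem_iInter] at hc
  exact ⟨c, (hc ∅).1, fun D hD => (hc D).2 hD⟩

end UnfE
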