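import Pool.Agent.Work.MP_1aab6d_co_ev.Rep

/-!
# Unfriendly partitions of countable graphs: vertices of even degree
-/

set_option autoImplicit false

namespace UnfE

open Finset Classical Unf UnfL

variable {V : Type*}

lemma eps_univ (c : V → Bool) (x y : V) :
    eps Set.univ c x y = if c y ≠ c x then 1 else -1 := by simp [eps]

lemma even_sum_eps (c : V → Bool) (v : V) (N : Finset V) :
    Even (∑ y ∈ N, eps Set.univ c v y) ↔ Even (N.card) := by
  induction N using Finset.induction_on with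
  | empty => simp
  | insert a N ha ih =>
    rw [Finset.sum_insert ha, Finset.card_insert_of_notMem ha, eps_univ]
    split_ifs
    · rw [add_comm, Int.even_add_one, ih, Nat.even_add_one]
    · rw [neg_add_eq_sub, Int.even_sub_one, ih, Nat.even_add_one]

section

variable (G : SimpleGraph V) (X T : Set V) (f : V → ℕ)

/-- The petal `w` is the owner of the vertex `v` of even degree. -/
def Ow (v w : V) : Prop :=
  v ∈ T ∧ Even (G.neighborSet v).ncard ∧ G.Adj v w ∧ Inf G w ∧ w ∉ X ∧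
    ∀ w', G.Adj v w' → Inf G w' → w' ∉ X → f w ≤ f w'

/-- The graph without the owned edges. -/
def Gm : SimpleGraph V where
  Adj a b := G.Adj a b ∧ ¬ Ow G X T f a b ∧ ¬ Ow G X T f b a
  symm := ⟨fun _ _ h => ⟨h.1.symm, h.2.2, h.2.1⟩⟩
  loopless := ⟨fun a h => G.loopless.irrefl a h.1⟩

end

variable {G : SimpleGraph V} {X T : Set V} {f : V → ℕ}

lemma gm_le (a b : V) (h : (Gm G X T f).Adj a b) : G.Adj a b := h.1

lemma hyp (hf : Function.Injective f) (hT : ∀ v ∈ T, ¬ Inf G v)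
    (hodd : ∀ u, Inf G u → u ∉ X → {v | G.Adj u v ∧ v ∈ T ∧ ¬ Even (G.neighborSet v).ncard}.Finite)
    (hpair : ∀ u u', Inf G u → Inf G u' → u ∉ X → u' ∉ X → u ≠ u' →
      {v | G.Adj u v ∧ G.Adj u' v ∧ v ∈ T}.Finite) :
    Hyp (Gm G X T f) T {u | Inf G u ∧ u ∉ X} f := by
  refine ⟨hf, fun x hx h => hT x hx (Set.Infinite.mono (fun y hy => gm_le x y hy) h),
    fun x hx hP => hT x hx hP.1, ?_⟩
  rintro u ⟨hu, huX⟩
  have h1 : {u' | f u' < f u}.Finite := (Set.finite_lt_nat (f u)).preimage hf.injOn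
  have h2 : (⋃ u' ∈ {u' | f u' < f u}, {v | G.Adj u v ∧ G.Adj u' v ∧ v ∈ T ∧ Inf G u' ∧ u' ∉ X}
      ).Finite := by
    refine h1.biUnion fun u' hu' => ?_
    by_cases h3 : Inf G u' ∧ u' ∉ X
    · refine (hpair u u' hu h3.1 huX h3.2 ?_).subset ?_
      · rintro rfl
        exact lt_irrefl (f u) hu'
      · rintro v ⟨a, b, c, _⟩
        exact ⟨a, b, c⟩
    · refine Set.finite_empty.subset ?_
      rintro v ⟨_, _, _, d⟩
      exact h3 d
  refine ((hodd u hu huX).union h2).subset ?_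
  rintro v ⟨hv, hadj⟩
  by_cases he : Even (G.neighborSet v).ncard
  · right
    have h3 : ¬ Ow G X T f v u := hadj.2.2
    unfold Ow at h3
    push Not at h3
    obtain ⟨w, hw1, hw2, hw3, hw4⟩ := h3 hv he hadj.1.symm hu huX
    exact Set.mem_biUnion (show w ∈ {u' | f u' < f u} from hw4)
      ⟨hadj.1, hw1.symm, hv, hw2, hw3⟩
  · left
    exact ⟨hadj.1, hv, he⟩

theorem main [Countable V] (G : SimpleGraph V) (X T : Set V) (hX : X.Finite)
    (hT : ∀ v ∈ T, ¬ Inf G v) (hTc : ∀ v ∈ T, ∀ w, G.Adj v w → ¬ Inf G w → w ∈ T)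
    (hodd : ∀ u, Inf G u → u ∉ X → {v | G.Adj u v ∧ v ∈ T ∧ ¬ Even (G.neighborSet v).ncard}.Finite)
    (hpair : ∀ u u', Inf G u → Inf G u' → u ∉ X → u' ∉ X → u ≠ u' →
      {v | G.Adj u v ∧ G.Adj u' v ∧ v ∈ T}.Finite)
    (h : {u | Inf G u ∧ ¬ {x | G.Adj u x ∧ (Inf G x ∨ x ∈ T)}.Infinite}.Finite) :
    ∃ c : V → Bool, Unfriendly G c := by
  obtain ⟨f, hf⟩ := exists_injective_nat V
  have hH := hyp hf hT hodd hpair
  set Γ := Gm G X T f with hΓ
  have hle : ∀ a b, Γ.Adj a b → G.Adj a b := gm_le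
  have hIΓ : ∀ x, ¬ Inf G x → ¬ Inf Γ x := fun x hx h =>
    hx (Set.Infinite.mono (fun y hy => gm_le x y hy) h)
  obtain ⟨c0, hc0, hR0⟩ := hH.dyn (fun u => {x | G.Adj u x ∧ (Inf G x ∨ x ∈ T)})
    {u | Inf G u ∧ u ∉ X ∧ {x | G.Adj u x ∧ (Inf G x ∨ x ∈ T)}.Infinite}
    (fun u hu => ⟨hu.1, hu.2.1⟩) (fun u hu => hu.2.2)
  -- the other vertices of finite degree
  set J : Set V := {v | ¬ Inf G v ∧ v ∉ T} with hJ
  obtain ⟨c1, hc1, hg1⟩ := ground (Γ := Γ) (T := J) (fun x hx => hIΓ x hx.1) c0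
  have hcong : ∀ D : Finset V, (∀ x ∈ D, x ∈ T) → E Γ c1 D = E Γ c0 D := by
    intro D hD
    refine E_congr (fun x hx => hc1 x fun hxJ => hxJ.2 (hD x hx)) fun x hx y hy => ?_
    refine hc1 y fun hyJ => hyJ.2 ?_
    exact hTc x (hD x hx) y (hle _ _ ((mem_nb Γ (hIΓ x (hT x (hD x hx)))).1 hy)) hyJ.1
  have hR1 : Rep Γ T c1 := by
    refine ⟨fun v hv => ?_, fun m S hS => ?_⟩
    · rw [hcong {v} (by simpa using hv)]
      exact hR0.1 v hv
    · obtain ⟨e, S', h1, h2, h3⟩ := hR0.2 m S hS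
      refine ⟨e, S', h1, h2, fun D hD => ?_⟩
      rw [hcong D (fun x hx => Ly_sub h2 _ x (hD hx))]
      exact h3 D hD
  have hTJ : T ∪ J = {v | ¬ Inf G v} := by
    ext v
    simp only [hJ, Set.mem_union, Set.mem_ofPred_eq]
    constructor
    · rintro (h1 | h1)
      · exact hT v h1
      · exact h1.1
    · intro h1
      by_cases h2 : v ∈ T
      · exact Or.inl h2
      · exact Or.inr ⟨h1, h2⟩
  have hR2 : Rep Γ {v | ¬ Inf G v} c1 := by
    rw [← hTJ]
    refine Rep.union (fun x hx => hIΓ x (hT x hx)) (fun x hx => hIΓ x hx.1) ?_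
      (fun x hx hxJ => hxJ.2 hx) hR1 hg1
    intro x hx y hy hadj
    exact hy.2 (hTc x hx y (hle _ _ hadj) hy.1)
  have hfin : {u | Inf G u ∧ ¬ Happy G c1 u}.Finite := by
    refine (h.union hX).subset ?_
    rintro u ⟨hu, hun⟩
    by_contra hn
    rw [Set.mem_union, not_or] at hn
    have hA : {x | G.Adj u x ∧ (Inf G x ∨ x ∈ T)}.Infinite := by
      by_contra h1
      exact hn.1 ⟨hu, h1⟩
    refine hun ((hc0 u ⟨hu, hn.2, hA⟩).mono ?_)
    rintro v ⟨⟨hv1, hv2⟩, hv3⟩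
    refine ⟨hv1, ?_⟩
    rw [hc1 v (fun hvJ => ?_), hc1 u (fun huJ => huJ.1 hu)]
    · exact hv3
    · rcases hv2 with hv2 | hv2
      · exact hvJ.1 hv2
      · exact hvJ.2 hv2
  obtain ⟨c, hc, hhap⟩ := rep_process hle hfin.toFinset.card c1 hR2 (by
    rw [hfin.encard_eq_coe_toFinset_card])
  refine ⟨c, unfriendly_of_sums ?_ hhap⟩
  intro v hv
  have he : 0 ≤ ∑ y ∈ nb Γ v, eps Set.univ c v y := by
    rw [← en_single]
    exact hc.1 v hv
  have hv1 : ¬ Inf Γ v := hIΓ v hv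
  by_cases hw : ∃ w, Ow G X T f v w
  · obtain ⟨w, hw⟩ := hw
    have hwn : w ∉ nb Γ v := by
      rw [mem_nb _ hv1]
      exact fun h1 => h1.2.1 hw
    have heq : nb G v = insert w (nb Γ v) := by
      ext y
      rw [Finset.mem_insert, mem_nb _ hv, mem_nb _ hv1]
      constructor
      · intro hy
        by_cases hyw : y = w
        · exact Or.inl hyw
        · refine Or.inr ⟨hy, fun hO => hyw ?_, fun hO => hv hO.2.2.2.1⟩
          refine hf (le_antisymm ?_ ?_)
          · exact hO.2.2.2.2.2 w hw.2.2.1 hw.2.2.2.1 hw.2.2.2.2.1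
          · exact hw.2.2.2.2.2 y hO.2.2.1 hO.2.2.2.1 hO.2.2.2.2.1
      · rintro (rfl | hy)
        · exact hw.2.2.1
        · exact hy.1
    have hNcard : (G.neighborSet v).ncard = (nb G v).card := by
      rw [← Set.ncard_coe_finset]
      congr 1
      ext y
      rw [Finset.mem_coe, mem_nb _ hv]
      rfl
    have hev : Even (nb G v).card := by
      rw [← hNcard]; exact hw.2.1
    rw [heq, Finset.card_insert_of_notMem hwn, Nat.even_add_one] at hev
    have hodd' : ¬ Even (∑ y ∈ nb Γ v, eps Set.univ c v y) := by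
      rw [even_sum_eps]; exact hev
    have hpos : 1 ≤ ∑ y ∈ nb Γ v, eps Set.univ c v y := by
      rcases lt_or_eq_of_le he with h1 | h1
      · exact h1
      · exact absurd (by rw [← h1]; exact Even.zero) hodd'
    rw [heq, Finset.sum_insert hwn]
    have := neg_one_le_eps Set.univ c v w
    linarith
  · have heq : nb G v = nb Γ v := by
      ext y
      rw [mem_nb _ hv, mem_nb _ hv1]
      constructor
      · intro hy
        exact ⟨hy, fun hO => hw ⟨y, hO⟩, fun hO => hv hO.2.2.2.1⟩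
      · exact fun hy => hy.1
    rw [heq]
    exact he

end UnfE
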