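import Pool.Agent.Work.MP_1aab6d_co_ev.Top

/-!
# Metastable colourings and exceptional vertices
-/

set_option autoImplicit false

namespace UnfE

open Finset Classical Unf UnfL

variable {V : Type*} {Γ : SimpleGraph V}

lemma mem_Ns {T : Set V} {S : Finset V} {x : V} :
    x ∈ Ns Γ T S ↔ x ∈ S ∨ ((∃ a ∈ S, x ∈ nb Γ a) ∧ x ∈ T) := by
  rw [Ns, mem_union, mem_filter, mem_biUnion]

lemma ly_union {T J : Set V} (hT : ∀ x ∈ T, ¬ Inf Γ x) (hJ : ∀ x ∈ J, ¬ Inf Γ x)
    (hTJ : ∀ x ∈ T, ∀ y ∈ J, ¬ Γ.Adj x y) {S1 S2 : Finset V} (h1 : ∀ x ∈ S1, x ∈ T)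
    (h2 : ∀ x ∈ S2, x ∈ J) (n : ℕ) :
    Ly Γ (T ∪ J) n (S1 ∪ S2) ⊆ Ly Γ T n S1 ∪ Ly Γ J n S2 := by
  induction n with
  | zero => exact subset_rfl
  | succ n ih =>
    intro x hx
    have hx' : x ∈ Ns Γ (T ∪ J) (Ly Γ (T ∪ J) n (S1 ∪ S2)) := hx
    rw [mem_Ns] at hx'
    rw [mem_union]
    rcases hx' with h | ⟨⟨a, ha, hax⟩, hxT⟩
    · rcases mem_union.1 (ih h) with h | h
      · exact Or.inl (Ly_succ_sub _ h)
      · exact Or.inr (Ly_succ_sub _ h)
    · rcases mem_union.1 (ih ha) with h | h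
      · have haT := Ly_sub h1 _ a h
        have hadj := (mem_nb _ (hT a haT)).1 hax
        rcases hxT with hxT | hxJ
        · exact Or.inl (Ly_adj h (hT a haT) hxT hadj)
        · exact absurd hadj (hTJ a haT x hxJ)
      · have haJ := Ly_sub h2 _ a h
        have hadj := (mem_nb _ (hJ a haJ)).1 hax
        rcases hxT with hxT | hxJ
        · exact absurd hadj.symm (hTJ x hxT a haJ)
        · exact Or.inr (Ly_adj h (hJ a haJ) hxJ hadj)

lemma cr_zero {P Q : Finset V} (g : V → V → ℤ) (hP : ∀ x ∈ P, ¬ Inf Γ x)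
    (hPQ : ∀ x ∈ P, ∀ y ∈ Q, ¬ Γ.Adj x y) : cr Γ g P Q = 0 := by
  unfold cr
  refine Finset.sum_eq_zero fun x hx => ?_
  have : nb Γ x ∩ Q = ∅ := by
    rw [Finset.eq_empty_iff_forall_notMem]
    intro y hy
    rw [mem_inter, mem_nb _ (hP x hx)] at hy
    exact hPQ x hx y hy.2 hy.1
  rw [this]
  simp

/-- Adding a region with a ground state. -/
theorem Rep.union {T J : Set V} (hT : ∀ x ∈ T, ¬ Inf Γ x) (hJ : ∀ x ∈ J, ¬ Inf Γ x)
    (hTJ : ∀ x ∈ T, ∀ y ∈ J, ¬ Γ.Adj x y) (hd : ∀ x ∈ T, x ∉ J) {c : V → Bool}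
    (hc : Rep Γ T c) (hg : ∀ D : Finset V, (∀ x ∈ D, x ∈ J) → 0 ≤ E Γ c D) :
    Rep Γ (T ∪ J) c := by
  refine ⟨?_, ?_⟩
  · rintro v (hv | hv)
    · exact hc.1 v hv
    · exact hg {v} (by simpa using hv)
  · intro m S hS
    obtain ⟨e, S1, hs1, hs2, hs3⟩ := hc.2 m (S.filter (· ∈ T)) (fun x hx => (mem_filter.1 hx).2)
    refine ⟨e, S1 ∪ S.filter (· ∈ J), ?_, ?_, ?_⟩
    · intro x hx
      rw [mem_union, mem_filter]
      rcases hS x hx with h | h
      · exact Or.inl (hs1 (mem_filter.2 ⟨hx, h⟩))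
      · exact Or.inr ⟨hx, h⟩
    · intro x hx
      rw [mem_union, mem_filter] at hx
      rcases hx with h | h
      · exact Or.inl (hs2 x h)
      · exact Or.inr h.2
    · intro D hD
      have hD' := hD.trans (ly_union hT hJ hTJ hs2 (fun x hx => (mem_filter.1 hx).2) _)
      have e1 : D = D.filter (· ∈ T) ∪ D.filter (· ∈ J) := by
        ext x
        rw [mem_union, mem_filter, mem_filter]
        constructor
        · intro hx
          rcases mem_union.1 (hD' hx) with h | h
          · exact Or.inl ⟨hx, Ly_sub hs2 _ x h⟩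
          · exact Or.inr ⟨hx, Ly_sub (fun x hx => (mem_filter.1 hx).2) _ x h⟩
        · rintro (h | h)
          · exact h.1
          · exact h.1
      have hdis : Disjoint (D.filter (· ∈ T)) (D.filter (· ∈ J)) := by
        rw [Finset.disjoint_left]
        intro x hx hx'
        exact hd x (mem_filter.1 hx).2 (mem_filter.1 hx').2
      have hfT : ∀ x ∈ D.filter (· ∈ T), x ∈ T := fun x hx => (mem_filter.1 hx).2
      have hfJ : ∀ x ∈ D.filter (· ∈ J), x ∈ J := fun x hx => (mem_filter.1 hx).2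
      have h3 := hs3 (D.filter (· ∈ T)) (by
        intro x hx
        rw [mem_filter] at hx
        rcases mem_union.1 (hD' hx.1) with h | h
        · exact h
        · exact absurd (Ly_sub (fun x hx => (mem_filter.1 hx).2) _ x h) (hd x hx.2))
      have h4 := hg (D.filter (· ∈ J)) hfJ
      rw [e1]
      show _ ≤ en Γ (eps Set.univ c) _
      rw [en_union _ hdis, cr_zero _ (fun x hx => hT x (hfT x hx))
        (fun x hx y hy => hTJ x (hfT x hx) y (hfJ y hy)),
        cr_zero _ (fun x hx => hJ x (hfJ x hx))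
        (fun x hx y hy h => hTJ y (hfT y hy) x (hfJ x hx) h.symm)]
      linarith

/-- Flip an unhappy vertex and repair. -/
theorem rep_flip {G : SimpleGraph V} (hle : ∀ a b, Γ.Adj a b → G.Adj a b) {c : V → Bool}
    (hc : Rep Γ {v | ¬ Inf G v} c) {w : V} (hw : Inf G w) (hfin : ¬ Happy G c w) :
    ∃ Q : Finset V, (∀ x ∈ Q, ¬ Inf G x) ∧
      Rep Γ {v | ¬ Inf G v} (flp (Function.update c w (!(c w))) Q) := by
  have hF : ∀ x ∈ {v | ¬ Inf G v}, ¬ Inf Γ x := fun x hx h =>
    hx (Set.Infinite.mono (fun y hy => hle x y hy) h)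
  have hfin' : {y | G.Adj w y ∧ c y ≠ c w}.Finite := Set.not_infinite.1 hfin
  set c1 := Function.update c w (!(c w)) with hc1
  set O := hfin'.toFinset.filter (fun x => ¬ Inf G x) with hO
  have hOmem : ∀ x, x ∈ O ↔ (G.Adj w x ∧ c x ≠ c w) ∧ ¬ Inf G x := by
    intro x
    rw [hO, mem_filter, Set.Finite.mem_toFinset]
    rfl
  have hb : ∀ Q : Finset V, (∀ x ∈ Q, ¬ Inf G x) →
      E Γ c Q - (2 * (O.card : ℤ)) ≤ E Γ c1 Q := by
    intro Q hQ
    have hwQ : w ∉ Q := fun h => hQ w h hw
    have e1 : en Γ (fun x y => eps Set.univ c x y + if y ∈ ({w} : Finset V) then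
        (if x ∈ O then (-2 : ℤ) else 0) else 0) Q ≤ en Γ (eps Set.univ c1) Q := by
      refine en_mono fun x hx y hy _ => ?_
      have hxw : x ≠ w := fun h => hwQ (h ▸ hx)
      by_cases hyw : y = w
      · subst hyw
        rw [if_pos (Finset.mem_singleton_self _)]
        by_cases hxO : x ∈ O
        · rw [if_pos hxO]
          have a1 := eps_le_one Set.univ c x y
          have a2 := neg_one_le_eps Set.univ c1 x y
          linarith
        · rw [if_neg hxO]
          have : c x = c y := by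
            by_contra hne
            refine hxO ?_
            rw [hOmem]
            exact ⟨⟨hle _ _ ((mem_nb Γ (hF x (hQ x hx))).1 hy).symm, hne⟩, hQ x hx⟩
          rw [eps_eq_neg (by simp [this]), eps_eq_one (Set.mem_univ _)
            (by rw [hc1, Function.update_self, Function.update_of_ne hxw, this]; simp)]
          norm_num
      · rw [if_neg (by simpa using hyw), add_zero]
        unfold eps
        rw [hc1, Function.update_of_ne hxw, Function.update_of_ne hyw]
    rw [en_add_ind _ _ (by simpa using hwQ)] at e1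
    have e2 : -(2 * (O.card : ℤ)) ≤ cr Γ (fun x _ => if x ∈ O then (-2 : ℤ) else 0) Q {w} := by
      unfold cr
      have : ∀ x ∈ Q, (if x ∈ O then (-2 : ℤ) else 0)
          ≤ ∑ y ∈ nb Γ x ∩ {w}, (if x ∈ O then (-2 : ℤ) else 0) := by
        intro x _
        rw [Finset.sum_const]
        have hcard : (nb Γ x ∩ {w}).card ≤ 1 := by
          refine (Finset.card_le_card Finset.inter_subset_right).trans ?_
          simp
        split_ifs
        · interval_cases hh : (nb Γ x ∩ {w}).card <;> simp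
        · simp
      refine le_trans ?_ (Finset.sum_le_sum this)
      rw [← Finset.sum_filter, Finset.sum_const, nsmul_eq_mul]
      have : ((Q.filter (· ∈ O)).card : ℤ) ≤ O.card := by
        exact_mod_cast Finset.card_le_card (fun x hx => (mem_filter.1 hx).2)
      linarith
    show en Γ (eps Set.univ c) Q - _ ≤ en Γ (eps Set.univ c1) Q
    linarith
  obtain ⟨e, S', hs1, hs2, hs3⟩ := hc.2 (2 * O.card) O (fun x hx => ((hOmem x).1 hx).2)
  obtain ⟨p, a1, a2, a3, a4, -⟩ := repair (Γ := Γ) (T := {v | ¬ Inf G v}) (S := S') (c := c1)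
    (K := 2 * (e + 2 * O.card) + 1) (e := e + 2 * O.card) hF hs2 (Nat.lt_succ_self _) (by
      intro D hD
      have h1 := hs3 D hD
      have h2 := hb D (fun x hx => Ly_sub hs2 _ x (hD hx))
      push_cast
      linarith)
  have hpF : ∀ x ∈ p.1, ¬ Inf G x := fun x hx => Ly_sub hs2 _ x (a2 hx)
  refine ⟨p.1, hpF, ?_, ?_⟩
  · intro v hv
    have hv' : ¬ Inf G v := hv
    have hvw : v ≠ w := fun h => hv' (h ▸ hw)
    by_cases hvL : v ∈ Ly Γ {v | ¬ Inf G v} (p.2 + 1) S'
    · exact a4 v hvL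
    · have hvp : v ∉ p.1 := fun h => hvL (Ly_succ_sub _ (a2 h))
      refine (hc.1 v hv).trans ?_
      refine en_mono fun x hx y hy _ => ?_
      rw [Finset.mem_singleton] at hx
      subst hx
      have hadj := (mem_nb Γ (hF x hv)).1 hy
      have hyp : y ∉ p.1 := fun h => hvL (Ly_adj (a2 h) (hF y (hpF y h)) hv hadj.symm)
      by_cases hyw : y = w
      · subst hyw
        have : c x = c y := by
          by_contra hne
          refine hvL (sub_Ly _ (hs1 ((hOmem x).2 ⟨⟨hle _ _ hadj.symm, hne⟩, hv'⟩)))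
        rw [eps_eq_neg (by simp [this]), eps_eq_one (Set.mem_univ _)]
        · norm_num
        · rw [flp_of_not_mem hyp, flp_of_not_mem hvp, hc1, Function.update_self,
            Function.update_of_ne hvw, this]
          simp
      · refine le_of_eq ?_
        unfold eps
        rw [flp_of_not_mem hyp, flp_of_not_mem hvp, hc1, Function.update_of_ne hvw,
          Function.update_of_ne hyw]
  · intro m S hS
    obtain ⟨e', S'', ht1, ht2, ht3⟩ := hc.2 (m + 2 * O.card) (S ∪ p.1) (by
      intro x hx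
      rcases mem_union.1 hx with h | h
      · exact hS x h
      · exact hpF x h)
    refine ⟨e' + 2 * O.card, S'', Finset.subset_union_left.trans ht1, ht2, ?_⟩
    intro D hD
    have hK : 2 * (e' + 2 * O.card + m) + 1 = 2 * (e' + (m + 2 * O.card)) + 1 := by ring
    rw [hK] at hD
    have hDF : ∀ x ∈ D, ¬ Inf G x := fun x hx => Ly_sub ht2 _ x (hD hx)
    have hsub : symmDiff p.1 D ⊆ Ly Γ {v | ¬ Inf G v} (2 * (e' + (m + 2 * O.card)) + 1) S'' := by
      intro x hx
      rw [Finset.mem_symmDiff] at hx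
      rcases hx with hx | hx
      · exact sub_Ly _ (ht1 (mem_union_right _ hx.1))
      · exact hD hx.1
    have h1 := ht3 _ hsub
    have h2 := hb (symmDiff p.1 D) (fun x hx => Ly_sub ht2 _ x (hsub hx))
    have h5 := en_flp (G := Γ) c1 p.1 D (fun x hx => hF x (hpF x hx))
          (fun x hx => hF x (hDF x hx))
    have h6 : E Γ (flp c1 p.1) D = E Γ c1 (symmDiff p.1 D) - E Γ c1 p.1 := h5
    rw [h6]
    push_cast
    linarith

/-- All exceptional vertices. -/
theorem rep_process {G : SimpleGraph V} (hle : ∀ a b, Γ.Adj a b → G.Adj a b) (n : ℕ) :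
    ∀ c : V → Bool, Rep Γ {v | ¬ Inf G v} c →
    {u | Inf G u ∧ ¬ Happy G c u}.encard ≤ n →
    ∃ c' : V → Bool, Rep Γ {v | ¬ Inf G v} c' ∧ ∀ u, Inf G u → Happy G c' u := by
  induction n with
  | zero =>
    intro c hc h
    refine ⟨c, hc, fun u hu => ?_⟩
    by_contra hn
    have : {u | Inf G u ∧ ¬ Happy G c u} = ∅ := by
      rw [← Set.encard_eq_zero]; simpa using h
    exact (this ▸ (show u ∈ {u | Inf G u ∧ ¬ Happy G c u} from ⟨hu, hn⟩) : u ∈ (∅ : Set V))
  | succ n ih =>
    intro c hc h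
    by_cases hall : ∀ u, Inf G u → Happy G c u
    · exact ⟨c, hc, hall⟩
    push Not at hall
    obtain ⟨w, hw, hwn⟩ := hall
    obtain ⟨Q, hQ, hT⟩ := rep_flip hle hc hw hwn
    set c' := Unf.flp (Function.update c w (!(c w))) Q with hc'
    have hwQ : w ∉ Q := fun h => hQ w h hw
    have hcw : c' w = !(c w) := by rw [hc', flp_of_not_mem hwQ, Function.update_self]
    have hag : ∀ v, v ∉ insert w Q → c' v = c v := by
      intro v hv
      rw [Finset.mem_insert, not_or] at hv
      rw [hc', flp_of_not_mem hv.2, Function.update_of_ne hv.1]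
    refine ih c' hT ?_
    have hsub : {u | Inf G u ∧ ¬ Happy G c' u} ⊆ {u | Inf G u ∧ ¬ Happy G c u} \ {w} := by
      rintro u ⟨hu, hun⟩
      have huw : u ≠ w := by
        rintro rfl
        apply hun
        have hfin : {y | G.Adj u y ∧ c y ≠ c u}.Finite := Set.not_infinite.1 hwn
        have : (G.neighborSet u \ ({y | G.Adj u y ∧ c y ≠ c u} ∪ ↑(insert u Q))).Infinite :=
          Set.Infinite.sdiff hu (hfin.union (Finset.finite_toSet _))
        refine this.mono ?_
        rintro y ⟨hy1, hy2⟩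
        rw [Set.mem_union, not_or] at hy2
        refine ⟨hy1, ?_⟩
        rw [hcw, hag y (by simpa using hy2.2)]
        have : c y = c u := by
          by_contra hne
          exact hy2.1 ⟨hy1, hne⟩
        rw [this]; simp
      refine ⟨⟨hu, fun hh => hun ?_⟩, huw⟩
      have huQ : u ∉ insert w Q := by
        rw [Finset.mem_insert, not_or]
        exact ⟨huw, fun h => hQ u h hu⟩
      exact hh.flp hag (hag u huQ)
    have hmem : w ∈ {u | Inf G u ∧ ¬ Happy G c u} := ⟨hw, hwn⟩
    have h1 := Set.encard_le_encard hsub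
    have h2 := Set.encard_sdiff_singleton_add_one hmem
    have h3 : ({u | Inf G u ∧ ¬ Happy G c u} \ {w}).encard + 1 ≤ (n : ℕ∞) + 1 := by
      rw [h2]; simpa using h
    have h4 := (ENat.add_le_add_iff_right (by simp : (1 : ℕ∞) ≠ ⊤)).1 h3
    exact h1.trans h4

end UnfE
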