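import Pool.Agent.Work.MP_1aab6d_co_ev.Dyn

/-!
# The compact space of consistent sequences
-/

set_option autoImplicit false

namespace UnfE

open Finset Classical Unf UnfL

variable {V : Type*} {Γ : SimpleGraph V} {T P : Set V} {f : V → ℕ}

/-- Metastable colourings on `T`: all vertices of `T` are stable, and arbitrarily large finite sets
are surrounded by more layers than twice their excess. -/
def Rep (Γ : SimpleGraph V) (T : Set V) (c : V → Bool) : Prop :=
  (∀ v ∈ T, 0 ≤ E Γ c {v}) ∧ ∀ (m : ℕ) (S : Finset V), (∀ x ∈ S, x ∈ T) →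
    ∃ (e : ℕ) (S' : Finset V), S ⊆ S' ∧ (∀ x ∈ S', x ∈ T) ∧
      ∀ D ⊆ Ly Γ T (2 * (e + m) + 1) S', -(e : ℤ) ≤ E Γ c D

lemma continuous_E (D : Finset V) : Continuous (fun c : V → Bool => E Γ c D) := continuous_en D

lemma isClosed_St (k : ℕ) : IsClosed {y : V → Bool | St Γ T P f k y} := by
  have : {y : V → Bool | St Γ T P f k y} = (⋂ D ∈ {D : Finset V | D ⊆ Bk Γ T P f k},
      {y | 0 ≤ E Γ y D}) ∩ ((⋂ v ∈ T, {y | 0 ≤ E Γ y {v}}) ∩
      ⋂ u ∈ {u | u ∈ P ∧ f u < k}, {y | y u = false}) := by
    ext y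
    simp only [St, Set.mem_ofPred_eq, Set.mem_inter_iff, Set.mem_iInter]
    constructor
    · rintro ⟨h1, h2, h3⟩
      exact ⟨fun D hD => h1 D hD, fun v hv => h2 v hv, fun u hu => h3 u hu.1 hu.2⟩
    · rintro ⟨h1, h2, h3⟩
      exact ⟨fun D hD => h1 D hD, fun v hv => h2 v hv, fun u hu hk => h3 u ⟨hu, hk⟩⟩
  rw [this]
  refine IsClosed.inter ?_ (IsClosed.inter ?_ ?_)
  · exact isClosed_biInter fun D _ => isClosed_le continuous_const (continuous_E D)
  · exact isClosed_biInter fun v _ => isClosed_le continuous_const (continuous_E {v})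
  · exact isClosed_biInter fun u _ => isClosed_eq (continuous_apply u) continuous_const

lemma Dk_congr {k : ℕ} {y y' : V → Bool}
    (h : ∀ v ∈ Win Γ T (Bk Γ T P f k ∪ Kn Γ T P f k) (Mk Γ T P f k), y v = y' v) :
    Dk Γ T P f k y = Dk Γ T P f k y' := by
  unfold Dk
  refine Rc_congr fun v hv => ?_
  unfold s1
  rw [h v hv]

lemma continuous_step (k : ℕ) :
    Continuous (fun p : Bool × (V → Bool) => step Γ T P f k p.1 p.2) := by
  rw [continuous_prod_of_discrete_left]
  intro b
  refine continuous_pi fun v => ?_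
  refine cont_of_local _ (insert v (Win Γ T (Bk Γ T P f k ∪ Kn Γ T P f k) (Mk Γ T P f k))) ?_
  intro y y' h
  have h1 : Dk Γ T P f k y = Dk Γ T P f k y' :=
    Dk_congr fun w hw => h w (Finset.mem_insert_of_mem hw)
  have h2 := h v (Finset.mem_insert_self _ _)
  show step Γ T P f k b y v = step Γ T P f k b y' v
  unfold step
  rw [h1]
  split_ifs
  · unfold flp s1
    rw [h2]
  · exact h2

lemma continuous_down {X : Type*} [TopologicalSpace X] {b : X → ℕ → Bool} {y : X → V → Bool}
    (hb : Continuous b) (hy : Continuous y) (n : ℕ) :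
    ∀ l, Continuous (fun x => down Γ T P f (b x) (y x) l n) := by
  induction n with
  | zero => intro l; exact hy
  | succ n ih =>
    intro l
    have h1 : Continuous (fun x => b x l) := (continuous_apply l).comp hb
    exact (continuous_step (Γ := Γ) (T := T) (P := P) (f := f) l).comp (h1.prodMk (ih (l + 1)))

lemma continuous_tog (k : ℕ) : Continuous (tog Γ T P f k) := by
  have hb : Continuous (fun p : (ℕ → Bool) × (ℕ → V → Bool) =>
      Function.update p.1 k (!(p.1 k))) := by
    refine Continuous.update continuous_fst k ?_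
    exact (continuous_of_discreteTopology (f := fun b : Bool => !b)).comp
      ((continuous_apply k).comp continuous_fst)
  have hy : ∀ l, Continuous (fun p : (ℕ → Bool) × (ℕ → V → Bool) => p.2 l) :=
    fun l => (continuous_apply l).comp continuous_snd
  refine hb.prodMk ?_
  refine continuous_pi fun l => ?_
  by_cases hl : l ≤ k
  · simp only [hl, if_true]
    exact continuous_down hb (hy (k + 1)) _ l
  · simp only [hl, if_false]
    exact hy l

lemma isClosed_TH : IsClosed (TH Γ T P f) := by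
  have : TH Γ T P f = ⋂ k : ℕ, ({p | St Γ T P f k (p.2 k)} ∩
      {p | p.2 k = step Γ T P f k (p.1 k) (p.2 (k + 1))}) := by
    ext p
    simp only [TH, Set.mem_ofPred_eq, Set.mem_iInter, Set.mem_inter_iff]
  rw [this]
  have hy : ∀ l, Continuous (fun p : (ℕ → Bool) × (ℕ → V → Bool) => p.2 l) :=
    fun l => (continuous_apply l).comp continuous_snd
  refine isClosed_iInter fun k => IsClosed.inter ?_ ?_
  · exact (isClosed_St k).preimage (hy k)
  · refine isClosed_eq (hy k) ?_
    exact (continuous_step (Γ := Γ) (T := T) (P := P) (f := f) k).comp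
      (((continuous_apply k).comp continuous_fst).prodMk (hy (k + 1)))

lemma Hyp.nonempty_TH (h : Hyp Γ T P f) : (TH Γ T P f).Nonempty := by
  obtain ⟨c, h1, h2⟩ := ground h.fin (fun _ => false)
  refine ⟨(fun _ => false, fun _ => c), fun k => ⟨⟨?_, ?_, ?_⟩, ?_⟩⟩
  · exact fun D hD => h2 D fun x hx => bk_sub k x (hD hx)
  · exact fun v hv => h2 {v} (by simpa using hv)
  · exact fun u hu _ => h1 u fun hT => h.dis u hT hu
  · rfl

/-- The multi-scale theorem. -/
theorem Hyp.dyn [Countable V] (h : Hyp Γ T P f) (Nb : V → Set V) (A : Set V) (hA : A ⊆ P)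
    (hNb : ∀ u ∈ A, (Nb u).Infinite) :
    ∃ c : V → Bool, (∀ u ∈ A, {v | v ∈ Nb u ∧ c v ≠ c u}.Infinite) ∧ Rep Γ T c := by
  have hcomp : CompactSpace (TH Γ T P f) :=
    isCompact_iff_compactSpace.1 isClosed_TH.isCompact
  have hne : Nonempty (TH Γ T P f) := h.nonempty_TH.to_subtype
  have hfin : ∀ (u : V) (t : TH Γ T P f), {v | (tog Γ T P f (f u) t.1).2 0 v ≠ t.1.2 0 v}.Finite := by
    intro u t
    have h1 : ({v | down Γ T P f (Function.update t.1.1 (f u) (!(t.1.1 (f u)))) (t.1.2 (f u + 1))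
        0 (f u + 1) v ≠ t.1.2 (f u + 1) v}).Finite := down_finite h (f u + 1) 0
    have h2 : ({v | down Γ T P f t.1.1 (t.1.2 (f u + 1)) 0 (f u + 1) v
        ≠ t.1.2 (f u + 1) v}).Finite := down_finite h (f u + 1) 0
    have h3 := th_down t.2 (f u + 1) 0
    rw [zero_add] at h3
    rw [← h3] at h2
    refine (h1.union h2).subset ?_
    intro v hv
    by_contra hn
    rw [Set.mem_union, not_or] at hn
    have e1 : down Γ T P f (Function.update t.1.1 (f u) (!(t.1.1 (f u)))) (t.1.2 (f u + 1))
        0 (f u + 1) v = t.1.2 (f u + 1) v := by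
      by_contra h4; exact hn.1 h4
    have e2 : t.1.2 0 v = t.1.2 (f u + 1) v := by
      by_contra h4; exact hn.2 h4
    refine hv ?_
    show (tog Γ T P f (f u) t.1).2 0 v = t.1.2 0 v
    rw [e2]
    show (if 0 ≤ f u then down Γ T P f (Function.update t.1.1 (f u) (!(t.1.1 (f u))))
      (t.1.2 (f u + 1)) 0 (f u + 1 - 0) else t.1.2 0) v = _
    rw [if_pos (Nat.zero_le _), Nat.sub_zero]
    exact e1
  obtain ⟨t, ht⟩ := select (Θ := TH Γ T P f)
    (g := fun u t => ⟨tog Γ T P f (f u) t.1, h.tog_mem t.2 (f u)⟩)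
    (z := fun u t => t.1.1 (f u)) (Col := fun v t => t.1.2 0 v) (Nb := Nb) (A := A)
    (fun u _ => ((continuous_tog (f u)).comp continuous_subtype_val).subtype_mk _)
    (fun u _ => (continuous_apply (f u)).comp (continuous_fst.comp continuous_subtype_val))
    (fun u _ t => by
      show Function.update t.1.1 (f u) (!(t.1.1 (f u))) (f u) = _
      rw [Function.update_self])
    (fun u _ w _ huw t => by
      show Function.update t.1.1 (f u) (!(t.1.1 (f u))) (f w) = _
      rw [Function.update_of_ne (fun h' => huw (h.inj h').symm)])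
    (fun v => (continuous_apply v).comp ((continuous_apply 0).comp
      (continuous_snd.comp continuous_subtype_val)))
    (fun u _ t => hfin u t) hNb
  refine ⟨t.1.2 0, fun u hu => ?_, ?_, ?_⟩
  · have h1 := ht u hu
    have h2 := h.th_petal t.2 (hA hu)
    refine h1.mono ?_
    rintro v ⟨hv1, hv2⟩
    refine ⟨hv1, ?_⟩
    rw [h2]
    exact hv2
  · exact (t.2 0).1.2.1
  · intro m S hS
    obtain ⟨k, hk, hSk⟩ := h.bk_exh S hS m
    refine ⟨2 * sd Γ T P f k, Bk Γ T P f k ∪ Kn Γ T P f k,
      hSk.trans Finset.subset_union_left, bkn_sub k, ?_⟩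
    intro D hD
    have h1 := h.th_excess t.2 k D ((hD.trans (Ly_mono ?_)).trans (ly_sub_bk k))
    · push_cast
      exact h1
    · unfold Mk
      omega

end UnfE
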